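import Pool.Agent.H58.BL.Stm

set_option autoImplicit false

open Finset Module

namespace Pool.Agent.H756.BL

open Pool.Agent.H58.BL

/-- Kronecker's symbol -/
def dl {d : ℕ} (a b : Fin d) : ℝ := if a = b then 1 else 0

/-- the symmetric matrix of trace zero -/
noncomputable def Pm {d : ℕ} (v : Fin d → ℝ) (a b : Fin d) : ℝ := v a * v b - dl a b / d

/-- the projection to the symmetric matrices of trace zero -/
noncomputable def Qm {d : ℕ} (a b a' b' : Fin d) : ℝ :=
  (dl a a' * dl b b' + dl a b' * dl b a') / 2 - dl a b * dl a' b' / d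

theorem Pm_symm {d : ℕ} (v : Fin d → ℝ) (a b : Fin d) : Pm v a b = Pm v b a := by
  unfold Pm dl
  by_cases h : a = b
  · subst h; rfl
  · rw [if_neg h, if_neg (fun h' => h h'.symm)]
    ring

theorem Pm_trace {d : ℕ} (hd : (d : ℝ) ≠ 0) (v : Fin d → ℝ) (hv : dt v v = 1) :
    ∑ a, Pm v a a = 0 := by
  unfold dt at hv
  unfold Pm dl
  simp only [if_true, Finset.sum_sub_distrib, hv, Finset.sum_const, Finset.card_univ,
    Fintype.card_fin, nsmul_eq_mul]
  field_simp
  ring

theorem Pm_inner {d : ℕ} (hd : (d : ℝ) ≠ 0) (v w : Fin d → ℝ) (hv : dt v v = 1)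
    (hw : dt w w = 1) : ∑ a, ∑ b, Pm v a b * Pm w a b = dt v w ^ 2 - 1 / d := by
  unfold dt at hv hw
  have h1 : ∀ a b : Fin d, Pm v a b * Pm w a b = (v a * w a) * (v b * w b)
      - dl a b * ((v a * v b + w a * w b) / d) + dl a b * (1 / (d : ℝ) ^ 2) := by
    intro a b
    unfold Pm dl
    by_cases h : a = b
    · rw [if_pos h]; field_simp; ring
    · rw [if_neg h]; ring
  have h2 : ∀ a : Fin d, ∑ b, Pm v a b * Pm w a b = (v a * w a) * (∑ b, v b * w b)
      - (v a * v a + w a * w a) / d + 1 / (d : ℝ) ^ 2 := by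
    intro a
    simp only [h1]
    rw [Finset.sum_add_distrib, Finset.sum_sub_distrib, ← Finset.mul_sum]
    simp [dl]
  simp only [h2]
  rw [Finset.sum_add_distrib, Finset.sum_sub_distrib, ← Finset.sum_mul, ← Finset.sum_div,
    Finset.sum_add_distrib, hv, hw, Finset.sum_const, Finset.card_univ, Fintype.card_fin,
    nsmul_eq_mul]
  unfold dt
  field_simp
  ring

theorem Qm_apply {d : ℕ} (P : Fin d → Fin d → ℝ) (hs : ∀ a b, P a b = P b a)
    (ht : ∑ a, P a a = 0) (a b : Fin d) : ∑ a', ∑ b', Qm a b a' b' * P a' b' = P a b := by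
  have h1 : ∀ a' b', Qm a b a' b' * P a' b' = 1 / 2 * (dl a a' * (dl b b' * P a' b')) +
      1 / 2 * (dl b a' * (dl a b' * P a' b')) - dl a b / d * (dl a' b' * P a' b') := by
    intro a' b'
    unfold Qm
    ring
  simp only [h1]
  simp only [Finset.sum_sub_distrib, Finset.sum_add_distrib, ← Finset.mul_sum]
  have h2 : ∀ (c : Fin d) (f : Fin d → ℝ), ∑ x, dl c x * f x = f c := by
    intro c f
    simp [dl]
  simp only [h2, ht, mul_zero, sub_zero]
  rw [hs b a]
  ring

theorem Qm_sq {d : ℕ} (hd : (d : ℝ) ≠ 0) :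
    ∑ a : Fin d, ∑ b : Fin d, ∑ a' : Fin d, ∑ b' : Fin d, Qm a b a' b' ^ 2 =
      ((d : ℝ) + 2) * (d - 1) / 2 := by
  have hsq : ∀ a b : Fin d, dl a b * dl a b = dl a b := by
    intro a b; unfold dl; split_ifs <;> norm_num
  have h2 : ∀ (c : Fin d) (f : Fin d → ℝ), ∑ x, dl c x * f x = f c := by
    intro c f
    simp [dl]
  have hone : ∀ c : Fin d, dl c c = 1 := fun c => by simp [dl]
  have hcomm : ∀ a b : Fin d, dl a b = dl b a := by
    intro a b; unfold dl; by_cases h : a = b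
    · subst h; rfl
    · rw [if_neg h, if_neg (fun h' => h h'.symm)]
  have h1 : ∀ a b a' b' : Fin d, Qm a b a' b' ^ 2 =
      1 / 4 * (dl a a' * (dl b b' * 1)) + 1 / 4 * (dl b a' * (dl a b' * 1)) +
      1 / 2 * (dl a a' * (dl b b' * (dl a b' * dl b a'))) -
      1 / d * (dl a a' * (dl b b' * (dl a b * dl a' b'))) -
      1 / d * (dl b a' * (dl a b' * (dl a b * dl a' b'))) +
      1 / (d : ℝ) ^ 2 * (dl a b * (dl a' b' * 1)) := by
    intro a b a' b'
    have e1 := hsq a a'
    have e2 := hsq b b'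
    have e3 := hsq a b'
    have e4 := hsq b a'
    have e5 := hsq a b
    have e6 := hsq a' b'
    unfold Qm
    have : ((dl a a' * dl b b' + dl a b' * dl b a') / 2 - dl a b * dl a' b' / d) ^ 2 =
      1 / 4 * ((dl a a' * dl a a') * (dl b b' * dl b b')) +
      1 / 4 * ((dl b a' * dl b a') * (dl a b' * dl a b')) +
      1 / 2 * (dl a a' * (dl b b' * (dl a b' * dl b a'))) -
      1 / d * (dl a a' * (dl b b' * (dl a b * dl a' b'))) -
      1 / d * (dl b a' * (dl a b' * (dl a b * dl a' b'))) +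
      1 / (d : ℝ) ^ 2 * ((dl a b * dl a b) * (dl a' b' * dl a' b')) := by
      field_simp
      ring
    rw [this, e1, e2, e3, e4, e5, e6]
    ring
  simp only [h1]
  simp only [Finset.sum_sub_distrib, Finset.sum_add_distrib, ← Finset.mul_sum, h2]
  simp only [hone, Finset.sum_const, Finset.card_univ, Fintype.card_fin,
    nsmul_eq_mul, mul_one]
  field_simp
  ring

theorem t_f2 : S_F2 := by
  intro d hd2
  have hd1 : (2 : ℝ) ≤ d := by exact_mod_cast hd2
  have hd0 : (d : ℝ) ≠ 0 := by positivity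
  have hd3 : (d : ℝ) - 1 ≠ 0 := by
    intro h; linarith
  obtain ⟨s, hs⟩ : ∃ s : ℝ, s * s = (d : ℝ) / (d - 1) :=
    ⟨_, Real.mul_self_sqrt (div_nonneg (by linarith) (by linarith))⟩
  refine ⟨Fin d × Fin d, inferInstance, fun v i => s * Pm v i.1 i.2,
    fun i j => Qm i.1 i.2 j.1 j.2, fun v w hv hw => ?_, fun v hv => ?_, ?_⟩
  · rw [Fintype.sum_prod_type]
    have h1 : ∀ a b : Fin d, s * Pm v a b *
        (s * Pm w a b) = (d : ℝ) / (d - 1) * (Pm v a b * Pm w a b) := by
      intro a b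
      rw [← hs]; ring
    simp only [h1, ← Finset.mul_sum]
    rw [Pm_inner hd0 v w hv hw]
    field_simp
  · rw [Fintype.sum_prod_type]
    simp only [Fintype.sum_prod_type]
    have h1 : ∀ a b a' b' : Fin d, Qm a b a' b' * (s * Pm v a b *
        (s * Pm v a' b')) =
          (d : ℝ) / (d - 1) * (Pm v a b * (Qm a b a' b' * Pm v a' b')) := by
      intro a b a' b'
      rw [← hs]; ring
    simp only [h1, ← Finset.mul_sum]
    simp only [Qm_apply (Pm v) (Pm_symm v) (Pm_trace hd0 v hv)]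
    rw [Pm_inner hd0 v v hv hv, hv]
    field_simp
  · rw [Fintype.sum_prod_type]
    simp only [Fintype.sum_prod_type]
    exact (Qm_sq hd0).le

end Pool.Agent.H756.BL
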